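import Pool.Agent.OddZetaU.TabCheck
import Pool.Agent.OddZetaU.Cells

/-! Kernel check of a part of the table.  Seat: helper57. -/

namespace Pool.Agent.OddZetaU

open Pool.Agent.OddZetaG.Tab

set_option maxRecDepth 100000 in
theorem ok_T1b10 : T1b10.all cellU = true := by decide +kernel

set_option maxRecDepth 100000 in
theorem ok_T1b11 : T1b11.all cellU = true := by decide +kernel

set_option maxRecDepth 100000 in
theorem ok_T1b12 : T1b12.all cellU = true := by decide +kernel

set_option maxRecDepth 100000 in
theorem ok_T1b13 : T1b13.all cellU = true := by decide +kernel

set_option maxRecDepth 100000 in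
theorem ok_T1b14 : T1b14.all cellU = true := by decide +kernel

set_option maxRecDepth 100000 in
theorem ok_T1b15 : T1b15.all cellU = true := by decide +kernel

set_option maxRecDepth 100000 in
theorem ok_T1b16 : T1b16.all cellU = true := by decide +kernel

set_option maxRecDepth 100000 in
theorem ok_T1b17 : T1b17.all cellU = true := by decide +kernel

set_option maxRecDepth 100000 in
theorem ok_T1b18 : T1b18.all cellU = true := by decide +kernel

set_option maxRecDepth 100000 in
theorem ok_T1b19 : T1b19.all cellU = true := by decide +kernel

end Pool.Agent.OddZetaU
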