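import Pool.Agent.OddZetaU.TabCheck
import Pool.Agent.OddZetaU.Cells

/-! Kernel check of a part of the table.  Seat: helper57. -/

namespace Pool.Agent.OddZetaU

open Pool.Agent.OddZetaG.Tab

set_option maxRecDepth 100000 in
theorem ok_T1b30 : T1b30.all cellU = true := by decide +kernel

set_option maxRecDepth 100000 in
theorem ok_T1b31 : T1b31.all cellU = true := by decide +kernel

set_option maxRecDepth 100000 in
theorem ok_T1b32 : T1b32.all cellU = true := by decide +kernel

set_option maxRecDepth 100000 in
theorem ok_T1b33 : T1b33.all cellU = true := by decide +kernel

set_option maxRecDepth 100000 in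
theorem ok_T1b34 : T1b34.all cellU = true := by decide +kernel

set_option maxRecDepth 100000 in
theorem ok_T1b35 : T1b35.all cellU = true := by decide +kernel

set_option maxRecDepth 100000 in
theorem ok_T1b36 : T1b36.all cellU = true := by decide +kernel

set_option maxRecDepth 100000 in
theorem ok_T1b37 : T1b37.all cellU = true := by decide +kernel

set_option maxRecDepth 100000 in
theorem ok_T1b38 : T1b38.all cellU = true := by decide +kernel

set_option maxRecDepth 100000 in
theorem ok_T1b39 : T1b39.all cellU = true := by decide +kernel

end Pool.Agent.OddZetaU
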