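import Pool.Agent.OddZetaU.TabCheck
import Pool.Agent.OddZetaU.Cells

/-! Kernel check of a part of the table.  Seat: helper57. -/

namespace Pool.Agent.OddZetaU

open Pool.Agent.OddZetaG.Tab

set_option maxRecDepth 100000 in
theorem ok_T1b50 : T1b50.all cellU = true := by decide +kernel

set_option maxRecDepth 100000 in
theorem ok_T1b51 : T1b51.all cellU = true := by decide +kernel

set_option maxRecDepth 100000 in
theorem ok_T1b52 : T1b52.all cellU = true := by decide +kernel

set_option maxRecDepth 100000 in
theorem ok_T1b53 : T1b53.all cellU = true := by decide +kernel

set_option maxRecDepth 100000 in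
theorem ok_T1b54 : T1b54.all cellU = true := by decide +kernel

set_option maxRecDepth 100000 in
theorem ok_T1b55 : T1b55.all cellU = true := by decide +kernel

set_option maxRecDepth 100000 in
theorem ok_T1b56 : T1b56.all cellU = true := by decide +kernel

set_option maxRecDepth 100000 in
theorem ok_T1b57 : T1b57.all cellU = true := by decide +kernel

set_option maxRecDepth 100000 in
theorem ok_T1b58 : T1b58.all cellU = true := by decide +kernel

end Pool.Agent.OddZetaU
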