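import Pool.Agent.OddZetaU.TabCheck
import Pool.Agent.OddZetaU.Cells

/-! Kernel check of a part of the table.  Seat: helper57. -/

namespace Pool.Agent.OddZetaU

open Pool.Agent.OddZetaG.Tab

set_option maxRecDepth 100000 in
theorem ok_T1a : T1a.all cellU = true := by decide +kernel

set_option maxRecDepth 100000 in
theorem ok_T0 : T0.all (cellFU 2) = true := by decide +kernel

set_option maxRecDepth 100000 in
theorem chain_T0 : chain 1 96 (T0.map v0) 1 27 = true := by decide +kernel

set_option maxRecDepth 100000 in
theorem chain_T1b : chain 1 27 (T1b.map v0) 1 1 = true := by decide +kernel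

set_option maxRecDepth 100000 in
theorem chain_T1 : chain 0 1 ((T1a ++ T1b).map v0) 1 1 = true := by decide +kernel

set_option maxRecDepth 100000 in
theorem pos_T0 : T0.all (fun e => Nat.blt 0 e.1) = true := by decide +kernel

set_option maxRecDepth 100000 in
theorem pos_T1b : T1b.all (fun e => Nat.blt 0 e.1) = true := by decide +kernel

end Pool.Agent.OddZetaU
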