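import Pool.Agent.OddZetaG.TabSound

/-!
The uniform family: data `D j` (`j = 0, 1, 2, ...`), giving an irrational number among
`ζ(7 + 2 j), ..., ζ(19 + 12 j)`, that is among `ζ(s + 2), ..., ζ(6 s - 11)` for `s = 5 + 2 j`.
Seat: helper57.
-/

open Finset

namespace Pool.Agent.OddZetaU

open Pool.Agent.OddZetaG Pool.Agent.OddZetaG.Tab

/-- data from lists of block parameters: zero blocks have the indices `0, ..., |ML| - 1` -/
def ofLists (C k A s lo : ℕ) (PL ML : List ℕ) : Dat where
  C := C
  P := Finset.Ico ML.length (ML.length + PL.length)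
  M := Finset.range ML.length
  h := fun i => (ML ++ PL).getD i 0
  k := k
  A := A
  s := s
  lo := lo

/-- pole blocks of the base -/
def P0 : List ℕ := [28, 29, 29, 30, 30, 31, 32, 32, 33, 33, 34, 34, 35, 36, 36, 37, 38, 39, 40, 40, 41]
/-- zero blocks of the base -/
def M0 : List ℕ := [0, 2, 4, 5, 6]
/-- pole blocks of the increment -/
def P1 : List ℕ := [30, 31, 32, 33, 34, 35, 36, 37, 38, 39, 40, 41]
/-- zero blocks of the increment -/
def M1 : List ℕ := [5, 6]

def PL (j : ℕ) : List ℕ := P0 ++ (List.replicate j P1).flatten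
def ML (j : ℕ) : List ℕ := M0 ++ (List.replicate j M1).flatten

/-- the family -/
def D (j : ℕ) : Dat := ofLists 96 (4 + 2 * j) (16 + 10 * j) 28 31 (PL j) (ML j)

theorem map_getD_range (l r : List ℕ) :
    (Multiset.range l.length).map (fun i => (l ++ r).getD i 0) = (l : Multiset ℕ) := by
  rw [← Multiset.coe_range, Multiset.map_coe]
  congr 1
  apply List.ext_getElem
  · simp
  · intro i h1 h2
    simp only [List.getElem_map, List.getElem_range]
    rw [List.getD_eq_getElem?_getD, List.getElem?_append_left h2, List.getElem?_eq_getElem h2]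
    rfl

theorem map_getD_Ico (l r : List ℕ) :
    (Finset.Ico l.length (l.length + r.length)).val.map (fun i => (l ++ r).getD i 0) =
      (r : Multiset ℕ) := by
  have h1 : (Finset.Ico l.length (l.length + r.length)).val =
      ((List.range r.length).map (fun i => l.length + i) : Multiset ℕ) := by
    rw [Nat.Ico_eq_range', ← List.range'_eq_map_range, Nat.add_sub_cancel_left]
  rw [h1, Multiset.map_coe, List.map_map]
  congr 1
  apply List.ext_getElem
  · simp
  · intro i h1 h2
    simp only [List.getElem_map, List.getElem_range, Function.comp]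
    rw [List.getD_eq_getElem?_getD, List.getElem?_append_right (Nat.le_add_right _ _),
      Nat.add_sub_cancel_left, List.getElem?_eq_getElem h2]
    rfl

theorem lists_ofLists (C k A s lo : ℕ) (PL ML : List ℕ) (hC : 0 < C)
    (hlt : ∀ h ∈ PL ++ ML, 2 * h < C) : Lists (ofLists C k A s lo PL ML) PL ML where
  P_eq := map_getD_Ico ML PL
  M_eq := map_getD_range ML PL
  lt := hlt
  Cpos := hC

theorem mem_flatten_replicate {j x : ℕ} {l : List ℕ} (h : x ∈ (List.replicate j l).flatten) :
    x ∈ l := by
  rw [List.mem_flatten] at h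
  obtain ⟨t, ht, hx⟩ := h
  rwa [List.eq_of_mem_replicate ht] at hx

theorem mem_PL {j x : ℕ} (h : x ∈ PL j) : x ∈ P0 ++ P1 := by
  unfold PL at h
  rw [List.mem_append] at h ⊢
  exact h.imp id mem_flatten_replicate

theorem mem_ML {j x : ℕ} (h : x ∈ ML j) : x ∈ M0 ++ M1 := by
  unfold ML at h
  rw [List.mem_append] at h ⊢
  exact h.imp id mem_flatten_replicate

theorem lists (j : ℕ) : Lists (D j) (PL j) (ML j) := by
  apply lists_ofLists _ _ _ _ _ _ _ (by norm_num)
  intro h hh
  have h1 : ∀ x ∈ (P0 ++ P1) ++ (M0 ++ M1), 2 * x < 96 := by decide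
  rw [List.mem_append] at hh
  apply h1
  rw [List.mem_append]
  exact hh.imp mem_PL mem_ML

theorem sum_flatten_replicate {α : Type*} [AddCommMonoid α] (j : ℕ) (l : List ℕ) (f : ℕ → α) :
    ((List.replicate j l).flatten.map f).sum = j • (l.map f).sum := by
  induction j with
  | zero => simp
  | succ j ih =>
    rw [List.replicate_succ, List.flatten_cons, List.map_append, List.sum_append, ih, succ_nsmul']

/-- sums over the pole blocks of `D j` -/
theorem sumPj {α : Type*} [AddCommMonoid α] (j : ℕ) (f : ℕ → α) :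
    ∑ i ∈ (D j).P, f ((D j).h i) = (P0.map f).sum + j • (P1.map f).sum := by
  have h1 : ∑ i ∈ (D j).P, f ((D j).h i) = (((D j).P.val.map (D j).h).map f).sum := by
    rw [Multiset.map_map]
    rfl
  rw [h1, (lists j).P_eq, Multiset.map_coe, Multiset.sum_coe]
  unfold PL
  rw [List.map_append, List.sum_append, sum_flatten_replicate]

/-- sums over the zero blocks of `D j` -/
theorem sumMj {α : Type*} [AddCommMonoid α] (j : ℕ) (f : ℕ → α) :
    ∑ i ∈ (D j).M, f ((D j).h i) = (M0.map f).sum + j • (M1.map f).sum := by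
  have h1 : ∑ i ∈ (D j).M, f ((D j).h i) = (((D j).M.val.map (D j).h).map f).sum := by
    rw [Multiset.map_map]
    rfl
  rw [h1, (lists j).M_eq, Multiset.map_coe, Multiset.sum_coe]
  unfold ML
  rw [List.map_append, List.sum_append, sum_flatten_replicate]

theorem h_mem_Pj {j i : ℕ} (hi : i ∈ (D j).P) : (D j).h i ∈ P0 ++ P1 :=
  mem_PL (h_mem_P (lists j) hi)

theorem h_mem_Mj {j i : ℕ} (hi : i ∈ (D j).M) : (D j).h i ∈ M0 ++ M1 := by
  have h1 : (D j).h i ∈ (D j).M.val.map (D j).h := Multiset.mem_map_of_mem _ hi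
  rw [(lists j).M_eq] at h1
  exact mem_ML h1

theorem length_PL (j : ℕ) : (PL j).length = 21 + 12 * j := by
  unfold PL
  have : ((List.replicate j P1).flatten).length = j * 12 := by
    rw [List.length_flatten, List.map_replicate, List.sum_replicate]
    rfl
  rw [List.length_append, this]
  have : P0.length = 21 := rfl
  omega

theorem length_ML (j : ℕ) : (ML j).length = 5 + 2 * j := by
  unfold ML
  have : ((List.replicate j M1).flatten).length = j * 2 := by
    rw [List.length_flatten, List.map_replicate, List.sum_replicate]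
    rfl
  rw [List.length_append, this]
  have : M0.length = 5 := rfl
  omega

theorem cardPj (j : ℕ) : (D j).P.card = 21 + 12 * j := by
  show (Finset.Ico (ML j).length ((ML j).length + (PL j).length)).card = _
  rw [Nat.card_Ico, Nat.add_sub_cancel_left, length_PL]

theorem cardMj (j : ℕ) : (D j).M.card = 5 + 2 * j := by
  show (Finset.range (ML j).length).card = _
  rw [Finset.card_range, length_ML]

theorem OKj (j : ℕ) : (D j).OK where
  keven := ⟨2 + j, by show 4 + 2 * j = _; ring⟩
  kpos := by show 2 ≤ 4 + 2 * j; omega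
  cardM := by rw [cardMj]; show _ = 4 + 2 * j + 1; ring
  cardP := by rw [cardMj, cardPj]; show _ = 5 + 2 * j + (16 + 10 * j); ring
  Aeven := ⟨8 + 5 * j, by show 16 + 10 * j = _; ring⟩
  A4 := by show 4 ≤ 16 + 10 * j; omega
  P_ge := by
    intro i hi
    have h1 : ∀ x ∈ P0 ++ P1, 28 ≤ x := by decide
    exact h1 _ (h_mem_Pj hi)
  P_lt := by
    intro i hi
    have h1 : ∀ x ∈ P0 ++ P1, 2 * x < 96 := by decide
    exact h1 _ (h_mem_Pj hi)
  M_lt := by
    intro i hi
    have h1 : ∀ x ∈ M0 ++ M1, x < 28 := by decide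
    exact h1 _ (h_mem_Mj hi)
  s_le := by show 28 ≤ 31; norm_num
  lo_lt := by show 2 * 31 < 96; norm_num
  lo_ok := by
    show #{i ∈ (D j).P | (D j).h i < 31} ≤ 4 + 2 * j + 1
    rw [Finset.card_filter, sumPj j (fun h => if h < 31 then 1 else 0)]
    have h0 : (P0.map (fun h => if h < 31 then 1 else 0)).sum = 5 := by decide
    have h1 : (P1.map (fun h => if h < 31 then 1 else 0)).sum = 1 := by decide
    rw [h0, h1, smul_eq_mul]
    omega
  deg := by
    show ∑ i ∈ (D j).M, (96 - 2 * (D j).h i) ≤ ∑ i ∈ (D j).P, (96 - 2 * (D j).h i)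
    rw [sumPj j (fun h => 96 - 2 * h), sumMj j (fun h => 96 - 2 * h)]
    have h0 : (P0.map (fun h => 96 - 2 * h)).sum = 582 := by decide
    have h1 : (P1.map (fun h => 96 - 2 * h)).sum = 300 := by decide
    have h2 : (M0.map (fun h => 96 - 2 * h)).sum = 446 := by decide
    have h3 : (M1.map (fun h => 96 - 2 * h)).sum = 170 := by decide
    rw [h0, h1, h2, h3, smul_eq_mul, smul_eq_mul]
    omega

end Pool.Agent.OddZetaU
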