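import Pool.Agent.OddZetaU.TabCheck
import Pool.Agent.OddZetaU.Cells

/-! Kernel check of a part of the table.  Seat: helper57. -/

namespace Pool.Agent.OddZetaU

open Pool.Agent.OddZetaG.Tab

def Bf0 (i : Nat) : Nat :=
  match i with
  | 0 => 7644439559
  | 1 => 2542407217
  | 2 => 1270866105
  | 3 => 762537187
  | 4 => 508401308
  | 5 => 363179496
  | 6 => 272411792
  | 7 => 211896755
  | 8 => 169533944
  | 9 => 138723088
  | 10 => 115613841
  | 11 => 97836751
  | 12 => 83868528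
  | 13 => 72693570
  | 14 => 63613616
  | _ => 0

set_option maxRecDepth 100000 in
theorem num0_T0 : sumUb 0 (T0.map v0) ≤ 403666667388 := Nat.le_of_ble_eq_true (by decide +kernel)

set_option maxRecDepth 100000 in
theorem num0_T1b : sumUb 0 (T1b.map v0) ≤ 394376124680 := Nat.le_of_ble_eq_true (by decide +kernel)

set_option maxRecDepth 100000 in
theorem num0_1 : sumUb (0 + 1) ((T1a ++ T1b).map v0) ≤ Bf0 0 := Nat.le_of_ble_eq_true (by decide +kernel)

set_option maxRecDepth 100000 in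
theorem num0_2 : sumUb (1 + 1) ((T1a ++ T1b).map v0) ≤ Bf0 1 := Nat.le_of_ble_eq_true (by decide +kernel)

set_option maxRecDepth 100000 in
theorem num0_3 : sumUb (2 + 1) ((T1a ++ T1b).map v0) ≤ Bf0 2 := Nat.le_of_ble_eq_true (by decide +kernel)

set_option maxRecDepth 100000 in
theorem num0_4 : sumUb (3 + 1) ((T1a ++ T1b).map v0) ≤ Bf0 3 := Nat.le_of_ble_eq_true (by decide +kernel)

set_option maxRecDepth 100000 in
theorem num0_5 : sumUb (4 + 1) ((T1a ++ T1b).map v0) ≤ Bf0 4 := Nat.le_of_ble_eq_true (by decide +kernel)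

set_option maxRecDepth 100000 in
theorem num0_6 : sumUb (5 + 1) ((T1a ++ T1b).map v0) ≤ Bf0 5 := Nat.le_of_ble_eq_true (by decide +kernel)

set_option maxRecDepth 100000 in
theorem num0_7 : sumUb (6 + 1) ((T1a ++ T1b).map v0) ≤ Bf0 6 := Nat.le_of_ble_eq_true (by decide +kernel)

set_option maxRecDepth 100000 in
theorem num0_8 : sumUb (7 + 1) ((T1a ++ T1b).map v0) ≤ Bf0 7 := Nat.le_of_ble_eq_true (by decide +kernel)

set_option maxRecDepth 100000 in
theorem num0_9 : sumUb (8 + 1) ((T1a ++ T1b).map v0) ≤ Bf0 8 := Nat.le_of_ble_eq_true (by decide +kernel)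

set_option maxRecDepth 100000 in
theorem num0_10 : sumUb (9 + 1) ((T1a ++ T1b).map v0) ≤ Bf0 9 := Nat.le_of_ble_eq_true (by decide +kernel)

set_option maxRecDepth 100000 in
theorem num0_11 : sumUb (10 + 1) ((T1a ++ T1b).map v0) ≤ Bf0 10 := Nat.le_of_ble_eq_true (by decide +kernel)

set_option maxRecDepth 100000 in
theorem num0_12 : sumUb (11 + 1) ((T1a ++ T1b).map v0) ≤ Bf0 11 := Nat.le_of_ble_eq_true (by decide +kernel)

set_option maxRecDepth 100000 in
theorem num0_13 : sumUb (12 + 1) ((T1a ++ T1b).map v0) ≤ Bf0 12 := Nat.le_of_ble_eq_true (by decide +kernel)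

set_option maxRecDepth 100000 in
theorem num0_14 : sumUb (13 + 1) ((T1a ++ T1b).map v0) ≤ Bf0 13 := Nat.le_of_ble_eq_true (by decide +kernel)

set_option maxRecDepth 100000 in
theorem num0_15 : sumUb (14 + 1) ((T1a ++ T1b).map v0) ≤ Bf0 14 := Nat.le_of_ble_eq_true (by decide +kernel)

def Bf1 (i : Nat) : Nat :=
  match i with
  | 0 => 4531729770
  | 1 => 1504612437
  | 2 => 751707890
  | 3 => 450923064
  | 4 => 300598293
  | 5 => 214714670
  | 6 => 161041945
  | 7 => 125261462
  | 8 => 100215438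
  | 9 => 82000177
  | 10 => 68338624
  | 11 => 57829651
  | 12 => 49572509
  | 13 => 42966730
  | 14 => 37599458
  | _ => 0

set_option maxRecDepth 100000 in
theorem num1_T0 : sumUb 0 (T0.map v1) ≤ 164666666986 := Nat.le_of_ble_eq_true (by decide +kernel)

set_option maxRecDepth 100000 in
theorem num1_T1b : sumUb 0 (T1b.map v1) ≤ 232650769642 := Nat.le_of_ble_eq_true (by decide +kernel)

set_option maxRecDepth 100000 in
theorem num1_1 : sumUb (0 + 1) ((T1a ++ T1b).map v1) ≤ Bf1 0 := Nat.le_of_ble_eq_true (by decide +kernel)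

set_option maxRecDepth 100000 in
theorem num1_2 : sumUb (1 + 1) ((T1a ++ T1b).map v1) ≤ Bf1 1 := Nat.le_of_ble_eq_true (by decide +kernel)

set_option maxRecDepth 100000 in
theorem num1_3 : sumUb (2 + 1) ((T1a ++ T1b).map v1) ≤ Bf1 2 := Nat.le_of_ble_eq_true (by decide +kernel)

set_option maxRecDepth 100000 in
theorem num1_4 : sumUb (3 + 1) ((T1a ++ T1b).map v1) ≤ Bf1 3 := Nat.le_of_ble_eq_true (by decide +kernel)

set_option maxRecDepth 100000 in
theorem num1_5 : sumUb (4 + 1) ((T1a ++ T1b).map v1) ≤ Bf1 4 := Nat.le_of_ble_eq_true (by decide +kernel)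

set_option maxRecDepth 100000 in
theorem num1_6 : sumUb (5 + 1) ((T1a ++ T1b).map v1) ≤ Bf1 5 := Nat.le_of_ble_eq_true (by decide +kernel)

set_option maxRecDepth 100000 in
theorem num1_7 : sumUb (6 + 1) ((T1a ++ T1b).map v1) ≤ Bf1 6 := Nat.le_of_ble_eq_true (by decide +kernel)

set_option maxRecDepth 100000 in
theorem num1_8 : sumUb (7 + 1) ((T1a ++ T1b).map v1) ≤ Bf1 7 := Nat.le_of_ble_eq_true (by decide +kernel)

set_option maxRecDepth 100000 in
theorem num1_9 : sumUb (8 + 1) ((T1a ++ T1b).map v1) ≤ Bf1 8 := Nat.le_of_ble_eq_true (by decide +kernel)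

set_option maxRecDepth 100000 in
theorem num1_10 : sumUb (9 + 1) ((T1a ++ T1b).map v1) ≤ Bf1 9 := Nat.le_of_ble_eq_true (by decide +kernel)

set_option maxRecDepth 100000 in
theorem num1_11 : sumUb (10 + 1) ((T1a ++ T1b).map v1) ≤ Bf1 10 := Nat.le_of_ble_eq_true (by decide +kernel)

set_option maxRecDepth 100000 in
theorem num1_12 : sumUb (11 + 1) ((T1a ++ T1b).map v1) ≤ Bf1 11 := Nat.le_of_ble_eq_true (by decide +kernel)

set_option maxRecDepth 100000 in
theorem num1_13 : sumUb (12 + 1) ((T1a ++ T1b).map v1) ≤ Bf1 12 := Nat.le_of_ble_eq_true (by decide +kernel)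

set_option maxRecDepth 100000 in
theorem num1_14 : sumUb (13 + 1) ((T1a ++ T1b).map v1) ≤ Bf1 13 := Nat.le_of_ble_eq_true (by decide +kernel)

set_option maxRecDepth 100000 in
theorem num1_15 : sumUb (14 + 1) ((T1a ++ T1b).map v1) ≤ Bf1 14 := Nat.le_of_ble_eq_true (by decide +kernel)

end Pool.Agent.OddZetaU
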