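import Pool.Agent.OddZetaG.OneNeG
import Pool.Agent.OddZetaU.Data

/-!
`rho0 (D j) 1 ≠ 0` for the uniform family: the prime `37` and the simple pole `l = 65`.
Seat: helper55.
-/

set_option autoImplicit false

open Finset

namespace Pool.Agent.OddZetaU

open Pool.Agent.OddZetaG Pool.Agent.OddZetaG.Tab

theorem ord_Dj (j l : ℕ) : ord (D j) 1 l =
    ((P0.map (fun h => if l ∈ blk (D 0) 1 h then (1 : ℤ) else 0)).sum -
      (M0.map (fun h => if l ∈ blk (D 0) 1 h then (1 : ℤ) else 0)).sum) +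
    j * ((P1.map (fun h => if l ∈ blk (D 0) 1 h then (1 : ℤ) else 0)).sum -
      (M1.map (fun h => if l ∈ blk (D 0) 1 h then (1 : ℤ) else 0)).sum) := by
  have h1 : ord (D j) 1 l = (∑ i ∈ (D j).P, if l ∈ blk (D 0) 1 ((D j).h i) then (1 : ℤ) else 0) -
      ∑ i ∈ (D j).M, if l ∈ blk (D 0) 1 ((D j).h i) then (1 : ℤ) else 0 := by
    unfold ord
    rw [Finset.card_filter, Finset.card_filter]
    push_cast
    rfl
  rw [h1, sumPj j (fun h => if l ∈ blk (D 0) 1 h then (1 : ℤ) else 0),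
    sumMj j (fun h => if l ∈ blk (D 0) 1 h then (1 : ℤ) else 0)]
  simp only [nsmul_eq_mul]
  ring

/-- the summand of `V` at `n = 1`, `p = 37` -/
def vt (l h : ℕ) : ℤ := ((Nl (D 0) 1 h / 37 : ℕ) : ℤ) - cnt (D 0) 1 l 37 h

theorem V_Dj (j l : ℕ) : V (D j) 1 l 37 =
    ((P0.map (vt l)).sum - (M0.map (vt l)).sum) +
    j * ((P1.map (vt l)).sum - (M1.map (vt l)).sum) := by
  have h1 : V (D j) 1 l 37 = (∑ i ∈ (D j).P, vt l ((D j).h i)) - ∑ i ∈ (D j).M, vt l ((D j).h i) := rfl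
  rw [h1, sumPj j (vt l), sumMj j (vt l)]
  simp only [nsmul_eq_mul]
  ring

/-- the summand of `E0` at `n = 1`, `p = 37` -/
def et (h : ℕ) : ℤ := ((Nl (D 0) 1 h / 37 : ℕ) : ℤ)

theorem E0_Dj (j : ℕ) : E0 (D j) 1 37 =
    ((P0.map et).sum - (M0.map et).sum) + j * ((P1.map et).sum - (M1.map et).sum) := by
  have h1 : E0 (D j) 1 37 = (∑ i ∈ (D j).P, et ((D j).h i)) - ∑ i ∈ (D j).M, et ((D j).h i) := rfl
  rw [h1, sumPj j et, sumMj j et]
  simp only [nsmul_eq_mul]
  ring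

theorem noP_Dj (j l : ℕ) (h : ∀ x ∈ P0 ++ P1, cnt (D 0) 1 l 37 x ≤ 0) : noP (D j) 1 l 37 := by
  intro i hi
  exact h _ (h_mem_Pj hi)

/-- UN: nonvanishing at `n = 1` -/
theorem rho0_one_ne (j : ℕ) : rho0 (D j) 1 ≠ 0 := by
  have : Fact (Nat.Prime 37) := ⟨by norm_num⟩
  have hV : V (D j) 1 65 37 = -3 - 2 * j := by
    rw [V_Dj]
    have e1 : (P0.map (vt 65)).sum - (M0.map (vt 65)).sum = -3 := by decide +kernel
    have e2 : (P1.map (vt 65)).sum - (M1.map (vt 65)).sum = -2 := by decide +kernel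
    rw [e1, e2]
    ring
  refine rho0_one_ne_of (p := 37) (OKj j) ?_ 65 ?_ ?_ ?_ ?_ ?_ ?_
  · show 96 < 37 ^ 2
    norm_num
  · show 65 ∈ Finset.Icc (31 * 1) ((96 - 31) * 1)
    decide
  · rw [ord_Dj]
    have e1 : (P0.map (fun h => if 65 ∈ blk (D 0) 1 h then (1 : ℤ) else 0)).sum -
      (M0.map (fun h => if 65 ∈ blk (D 0) 1 h then (1 : ℤ) else 0)).sum = 1 := by decide +kernel
    have e2 : (P1.map (fun h => if 65 ∈ blk (D 0) 1 h then (1 : ℤ) else 0)).sum -
      (M1.map (fun h => if 65 ∈ blk (D 0) 1 h then (1 : ℤ) else 0)).sum = 0 := by decide +kernel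
    rw [e1, e2]
    ring
  · show ¬ ((37 : ℕ) : ℤ) ∣ ((96 : ℕ) : ℤ) - 2 * ((65 : ℕ) : ℤ)
    decide
  · show 37 ≤ 65 - 28
    norm_num
  · show 65 - 28 < 2 * 37
    norm_num
  · intro l hl
    have hl1 : l ≠ 65 := Finset.ne_of_mem_erase hl
    have hl2 : l ∈ Finset.Icc (31 * 1) ((96 - 31) * 1) := Finset.mem_of_mem_erase hl
    rw [Finset.mem_Icc] at hl2
    have hk : ((D j).k : ℤ) = 4 + 2 * j := by
      show ((4 + 2 * j : ℕ) : ℤ) = _
      push_cast
      ring
    rw [hV, hk]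
    rcases Nat.lt_or_ge l 32 with h31 | h32
    · have hl3 : l = 31 := by omega
      subst hl3
      right; left
      refine ⟨by show 31 - 28 < 37; norm_num, ?_⟩
      rw [ord_Dj, V_Dj]
      have e1 : ((P0.map (fun h => if 31 ∈ blk (D 0) 1 h then (1 : ℤ) else 0)).sum -
        (M0.map (fun h => if 31 ∈ blk (D 0) 1 h then (1 : ℤ) else 0)).sum) -
        ((P0.map (vt 31)).sum - (M0.map (vt 31)).sum) = 4 := by decide +kernel
      have e2 : ((P1.map (fun h => if 31 ∈ blk (D 0) 1 h then (1 : ℤ) else 0)).sum -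
        (M1.map (fun h => if 31 ∈ blk (D 0) 1 h then (1 : ℤ) else 0)).sum) -
        ((P1.map (vt 31)).sum - (M1.map (vt 31)).sum) = 2 := by decide +kernel
      have hj : (0 : ℤ) ≤ j := Int.natCast_nonneg j
      generalize hA : (P0.map (fun h => if 31 ∈ blk (D 0) 1 h then (1 : ℤ) else 0)).sum -
        (M0.map (fun h => if 31 ∈ blk (D 0) 1 h then (1 : ℤ) else 0)).sum = A at *
      generalize hB : (P1.map (fun h => if 31 ∈ blk (D 0) 1 h then (1 : ℤ) else 0)).sum -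
        (M1.map (fun h => if 31 ∈ blk (D 0) 1 h then (1 : ℤ) else 0)).sum = B at *
      generalize hC : (P0.map (vt 31)).sum - (M0.map (vt 31)).sum = A' at *
      generalize hD : (P1.map (vt 31)).sum - (M1.map (vt 31)).sum = B' at *
      have : A = A' + 4 := by linarith
      have : B = B' + 2 := by linarith
      subst_vars
      nlinarith
    · left
      refine ⟨by show l - 28 < 37; omega, ?_, ?_⟩
      · apply noP_Dj
        have hall : ∀ m ∈ Finset.Icc 32 64, ∀ x ∈ P0 ++ P1, cnt (D 0) 1 m 37 x ≤ 0 := by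
          decide +kernel
        exact hall l (Finset.mem_Icc.2 ⟨h32, by omega⟩)
      · rw [E0_Dj]
        have e1 : (P0.map et).sum - (M0.map et).sum = -7 := by decide +kernel
        have e2 : (P1.map et).sum - (M1.map et).sum = -4 := by decide +kernel
        rw [e1, e2]
        linarith

end Pool.Agent.OddZetaU
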