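import Pool.Agent.OddZetaU.Data
import Pool.Agent.OddZetaG.SizeIneqG

set_option autoImplicit false

/-!
The size inequality of the uniform family (module US).  Seat: helper96.
-/

open Finset

namespace Pool.Agent.OddZetaU

open Pool.Agent.OddZetaG Pool.Agent.OddZetaG.Tab
open Real Set

/-- the increment of the family, as data -/
def Dinc : Dat := ofLists 96 2 10 28 31 P1 M1

theorem listsInc : Lists Dinc P1 M1 := by
  apply lists_ofLists _ _ _ _ _ _ _ (by norm_num)
  decide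

theorem sumPinc {α : Type*} [AddCommMonoid α] (f : ℕ → α) :
    ∑ i ∈ Dinc.P, f (Dinc.h i) = (P1.map f).sum := by
  have h1 : ∑ i ∈ Dinc.P, f (Dinc.h i) = ((Dinc.P.val.map Dinc.h).map f).sum := by
    rw [Multiset.map_map]
    rfl
  rw [h1, listsInc.P_eq, Multiset.map_coe, Multiset.sum_coe]

theorem sumMinc {α : Type*} [AddCommMonoid α] (f : ℕ → α) :
    ∑ i ∈ Dinc.M, f (Dinc.h i) = (M1.map f).sum := by
  have h1 : ∑ i ∈ Dinc.M, f (Dinc.h i) = ((Dinc.M.val.map Dinc.h).map f).sum := by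
    rw [Multiset.map_map]
    rfl
  rw [h1, listsInc.M_eq, Multiset.map_coe, Multiset.sum_coe]

theorem GGG_split (j : ℕ) (η : ℝ) :
    GGG (D j) 6 η = GGG (D 0) 6 η + j * GGG Dinc 6 η := by
  have eP : ∀ (k : ℕ) (h : ℕ), gPG (D k) 6 h η = gPG Dinc 6 h η := fun _ _ => rfl
  have eM : ∀ (k : ℕ) (h : ℕ), gMG (D k) 6 h η = gMG Dinc 6 h η := fun _ _ => rfl
  unfold GGG
  simp only [eP, eM]
  rw [sumPj j (fun h => gPG Dinc 6 h η), sumMj j (fun h => gMG Dinc 6 h η),
    sumPj 0 (fun h => gPG Dinc 6 h η), sumMj 0 (fun h => gMG Dinc 6 h η),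
    sumPinc (fun h => gPG Dinc 6 h η), sumMinc (fun h => gMG Dinc 6 h η)]
  simp only [zero_smul, add_zero, nsmul_eq_mul]
  ring

theorem base_cert : numG (D 0) 6 39 5 * 27182818286 ^ 3267 ≤ denG (D 0) 6 39 5 * 10000000000 ^ 3267 := by
  decide +kernel

theorem base_s1 : slopeG (D 0) 6 39 5 ≤ 62830 / 10000 - 1 / 100 := by
  decide +kernel

theorem base_s2 : slopeE (D 0) 6 36 80 ≤ 62830 / 10000 - 1 / 100 := by
  decide +kernel

theorem base_s3 : slopeE2 (D 0) 6 80 ≤ 62830 / 10000 - 1 / 100 := by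
  decide +kernel


theorem base_ineq (η : ℝ) (hη : 0 < η) :
    GGG (D 0) 6 η - 2 * π * η ≤ -(3267 / 4) - 1 / 100 * η := by
  have h := ineqG (D 0) (c := 6) (u := 39) (v := 5) (Q := 3267) (E := 36) (E2 := 80) (d := 1 / 100)
    (by norm_num) (by norm_num) (by norm_num) (by norm_num)
    (fun i hi => by
      have h1 : ∀ x ∈ P0 ++ P1, 2 * 6 + 1 < 2 * x := by decide
      exact h1 _ (h_mem_Pj hi))
    (fun i hi => (OKj 0).P_lt i hi)
    (fun i hi => by
      have h1 : ∀ x ∈ M0 ++ M1, 2 * x < 2 * 6 + 1 := by decide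
      exact h1 _ (h_mem_Mj hi))
    (by show 2 * 6 + 1 < 96; norm_num)
    (fun i hi => by
      have h1 : ∀ x ∈ P0 ++ P1, 4 * 36 ^ 2 ≤ (2 * x - (2 * 6 + 1)) * (2 * 96 - 2 * x - (2 * 6 + 1)) := by
        decide
      exact h1 _ (h_mem_Pj hi))
    base_cert base_s1 base_s2 base_s3 η hη
  push_cast at h
  linarith

theorem h_mem_Pinc {i : ℕ} (hi : i ∈ Dinc.P) : Dinc.h i ∈ P1 := h_mem_P listsInc hi

theorem h_mem_Minc {i : ℕ} (hi : i ∈ Dinc.M) : Dinc.h i ∈ M1 := by
  have h1 : Dinc.h i ∈ Dinc.M.val.map Dinc.h := Multiset.mem_map_of_mem _ hi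
  rw [listsInc.M_eq] at h1
  exact h1

theorem inc_cert : numG Dinc 6 179 10 * 27182818286 ^ 1652 ≤ denG Dinc 6 179 10 * 10000000000 ^ 1652 := by
  decide +kernel

theorem inc_s1 : slopeG Dinc 6 179 10 ≤ 0 := by
  decide +kernel

theorem inc_s2 : slopeE Dinc 6 37 100 ≤ 0 := by
  decide +kernel

theorem incP1 : ∀ i ∈ Dinc.P, 2 * 6 + 1 < 2 * Dinc.h i := fun i hi => by
  have h1 : ∀ x ∈ P1, 2 * 6 + 1 < 2 * x := by decide
  exact h1 _ (h_mem_Pinc hi)

theorem incP2 : ∀ i ∈ Dinc.P, 2 * Dinc.h i < Dinc.C := fun i hi => by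
  have h1 : ∀ x ∈ P1, 2 * x < 96 := by decide
  exact h1 _ (h_mem_Pinc hi)

theorem incM : ∀ i ∈ Dinc.M, 2 * Dinc.h i < 2 * 6 + 1 := fun i hi => by
  have h1 : ∀ x ∈ M1, 2 * x < 2 * 6 + 1 := by decide
  exact h1 _ (h_mem_Minc hi)

theorem incE : ∀ i ∈ Dinc.P, 4 * 37 ^ 2 ≤ aP Dinc 6 i * bb Dinc 6 i := fun i hi => by
  have h1 : ∀ x ∈ P1, 4 * 37 ^ 2 ≤ (2 * x - (2 * 6 + 1)) * (2 * 96 - 2 * x - (2 * 6 + 1)) := by
    decide
  exact h1 _ (h_mem_Pinc hi)

theorem arctan_ge_mul {x : ℝ} (hx : 0 ≤ x) (hx1 : x ≤ 1 / 2) : 11 / 12 * x ≤ arctan x := by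
  have h := Pool.Agent.OddZeta.le_arctan7 hx
  have h2 : x ^ 2 ≤ 1 / 4 := by nlinarith
  have h3 : 0 ≤ x ^ 3 * (1 / 4 - x ^ 2) := by
    have := pow_nonneg hx 3
    apply mul_nonneg this
    linarith
  have h4 : 0 ≤ x * (1 / 4 - x ^ 2) := mul_nonneg hx (by linarith)
  have h5 : 0 ≤ x ^ 5 * (1 / 5 - x ^ 2 / 7) := by
    have := pow_nonneg hx 5
    apply mul_nonneg this
    linarith
  nlinarith

/-- the slope of the increment is nonpositive for large `η` -/
theorem inc_slope_large {η : ℝ} (h : 100 ≤ η) : AAG Dinc 6 η ≤ 0 := by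
  have hη : 0 < η := by linarith
  -- the zero blocks
  have sM : ∑ i ∈ Dinc.M, (arctan ((aM Dinc 6 i : ℝ) / 2 / η) + arctan ((bb Dinc 6 i : ℝ) / 2 / η)) ≤
      170 / η := by
    have e1 : ∀ i ∈ Dinc.M, arctan ((aM Dinc 6 i : ℝ) / 2 / η) + arctan ((bb Dinc 6 i : ℝ) / 2 / η) ≤
        ((96 - 2 * (Dinc.h i : ℝ))) / η := by
      intro i hi
      have g := incM i hi
      have a1 := Pool.Agent.OddZeta.arctan_le_self' (x := (aM Dinc 6 i : ℝ) / 2 / η) (by positivity)
      have a2 := Pool.Agent.OddZeta.arctan_le_self' (x := (bb Dinc 6 i : ℝ) / 2 / η) (by positivity)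
      have a3 : (aM Dinc 6 i : ℝ) = 13 - 2 * (Dinc.h i : ℝ) := by
        unfold aM
        rw [Nat.cast_sub (by omega)]
        push_cast
        ring
      have a4 : (bb Dinc 6 i : ℝ) = 179 - 2 * (Dinc.h i : ℝ) := by
        have hC : Dinc.C = 96 := rfl
        unfold bb
        rw [hC, Nat.cast_sub (by omega), Nat.cast_sub (by omega)]
        push_cast
        ring
      refine (add_le_add a1 a2).trans (le_of_eq ?_)
      rw [a3, a4]
      field_simp
      ring
    refine (Finset.sum_le_sum e1).trans (le_of_eq ?_)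
    rw [sumMinc (fun h => (96 - 2 * (h : ℝ)) / η)]
    simp [M1]
    field_simp
    norm_num
  -- the pole blocks
  have sP : ∑ i ∈ Dinc.P, (arctan ((aP Dinc 6 i : ℝ) / 2 / η) - arctan ((bb Dinc 6 i : ℝ) / 2 / η)) ≤
      - (170 / η) := by
    have e1 : ∀ i ∈ Dinc.P, arctan ((aP Dinc 6 i : ℝ) / 2 / η) - arctan ((bb Dinc 6 i : ℝ) / 2 / η) ≤
        (-(3 / 4) * (96 - 2 * (Dinc.h i : ℝ))) / η := by
      intro i hi
      have g1 := incP1 i hi
      have g2 : 2 * Dinc.h i < 96 := incP2 i hi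
      have a3 : (aP Dinc 6 i : ℝ) = 2 * (Dinc.h i : ℝ) - 13 := by
        unfold aP
        rw [Nat.cast_sub (by omega)]
        push_cast
        ring
      have a4 : (bb Dinc 6 i : ℝ) = 179 - 2 * (Dinc.h i : ℝ) := by
        have hC : Dinc.C = 96 := rfl
        unfold bb
        rw [hC, Nat.cast_sub (by omega), Nat.cast_sub (by omega)]
        push_cast
        ring
      have g3 : 30 ≤ Dinc.h i := by
        have h1 : ∀ x ∈ P1, 30 ≤ x := by decide
        exact h1 _ (h_mem_Pinc hi)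
      have h0 : (30 : ℝ) ≤ (Dinc.h i : ℝ) := by exact_mod_cast g3
      have h1 : (13 : ℝ) + 1 ≤ 2 * (Dinc.h i : ℝ) := by exact_mod_cast g1
      have h2 : 2 * (Dinc.h i : ℝ) + 1 ≤ 96 := by exact_mod_cast g2
      rw [a3, a4]
      set x : ℝ := (Dinc.h i : ℝ) with hx
      rw [arctan_diff (by linarith) (by linarith) hη]
      set r : ℝ := η * ((179 - 2 * x) / 2 - (2 * x - 13) / 2) / (η ^ 2 + (2 * x - 13) / 2 * ((179 - 2 * x) / 2))
        with hr
      have hab : 0 ≤ (2 * x - 13) / 2 * ((179 - 2 * x) / 2) :=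
        mul_nonneg (by linarith) (by linarith)
      have hab2 : (2 * x - 13) / 2 * ((179 - 2 * x) / 2) ≤ 1764 := by nlinarith [sq_nonneg (4 * x - 192)]
      have hden : 0 < η ^ 2 + (2 * x - 13) / 2 * ((179 - 2 * x) / 2) := by positivity
      have hr0 : 0 ≤ r := by
        rw [hr]
        apply div_nonneg _ hden.le
        apply mul_nonneg hη.le
        linarith
      have hr1 : r ≤ 1 / 2 → 11 / 12 * r ≤ arctan r := fun h => arctan_ge_mul hr0 h
      -- lower bound for r: `r ≥ (96 - 2 x) / (η * 1.1764)`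
      have hrl : (96 - 2 * x) / η * (10000 / 11764) ≤ r := by
        rw [hr, div_mul_eq_mul_div, div_le_div_iff₀ hη hden]
        have h6 : η ^ 2 + (2 * x - 13) / 2 * ((179 - 2 * x) / 2) ≤ η ^ 2 * (11764 / 10000) := by
          nlinarith
        have h7 : 0 ≤ 96 - 2 * x := by linarith
        calc (96 - 2 * x) * (10000 / 11764) * (η ^ 2 + (2 * x - 13) / 2 * ((179 - 2 * x) / 2))
            ≤ (96 - 2 * x) * (10000 / 11764) * (η ^ 2 * (11764 / 10000)) := by gcongr
          _ = η * ((179 - 2 * x) / 2 - (2 * x - 13) / 2) * η := by ring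
      have h8 : 0 ≤ (96 - 2 * x) / η := div_nonneg (by linarith) hη.le
      have h9 : (96 - 2 * x) / η ≤ 36 / 100 := by
        rw [div_le_iff₀ hη]
        nlinarith
      have h13 : r ≤ (96 - 2 * x) / η := by
        rw [hr, div_le_div_iff₀ hden hη]
        nlinarith [mul_nonneg (show 0 ≤ 96 - 2 * x by linarith) hab]
      have hkey : 3 / 4 * ((96 - 2 * x) / η) ≤ arctan r := by
        have := hr1 (by linarith)
        nlinarith
      have : (-(3 / 4) * (96 - 2 * x)) / η = -(3 / 4 * ((96 - 2 * x) / η)) := by ring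
      rw [this]
      linarith
    refine (Finset.sum_le_sum e1).trans ?_
    rw [sumPinc (fun h => (-(3 / 4) * (96 - 2 * (h : ℝ))) / η)]
    simp only [P1, List.map_cons, List.map_nil, List.sum_cons, List.sum_nil]
    rw [← neg_div]
    have : (0:ℝ) < 1 / η := by positivity
    field_simp
    norm_num
  unfold AAG
  linarith


theorem inc_ineq (η : ℝ) (h0 : 0 < η) : GGG Dinc 6 η ≤ -(1652 / 4) := by
  have hC : 2 * 6 + 1 < Dinc.C := by show 2 * 6 + 1 < 96; norm_num
  have hPlt : ∀ i ∈ Dinc.P, aP Dinc 6 i < bb Dinc 6 i := fun i hi => by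
    have := incP1 i hi; have := incP2 i hi; unfold aP bb; omega
  have hMpos : ∀ i ∈ Dinc.M, 0 < aM Dinc 6 i := fun i hi => by
    have := incM i hi; unfold aM; omega
  have e2 := LLG_le Dinc (c := 6) (u := 179) (v := 10) (Q := 1652) (by norm_num) (by norm_num)
    hPlt hMpos inc_cert
  have e3 : AAG Dinc 6 ((179 : ℕ) / (10 : ℕ) : ℝ) ≤ 0 := by
    refine (AAG_le_slope Dinc (by norm_num) (by norm_num) (c := 6) (u := 179) (v := 10)).trans ?_
    exact_mod_cast inc_s1
  have small : ∀ η : ℝ, 0 < η → η ≤ (37 : ℕ) → GGG Dinc 6 η ≤ -(1652 / 4) := by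
    intro η h0 h1
    have e1 := GGG_small Dinc incP1 incP2 incM hC incE (e := ((179 : ℕ) / (10 : ℕ) : ℝ))
      (by norm_num) (by norm_num) h0 h1
    have e4 : η * AAG Dinc 6 ((179 : ℕ) / (10 : ℕ) : ℝ) ≤ 0 :=
      mul_nonpos_of_nonneg_of_nonpos h0.le e3
    push_cast at e1 e2 e3 e4
    linarith
  rcases le_or_gt η (37 : ℕ) with h1 | h1
  · exact small η h0 h1
  · have hanti : AntitoneOn (fun x => GGG Dinc 6 x) (Ici ((37 : ℕ) : ℝ)) := by
      have hpos : ∀ y : ℝ, ((37 : ℕ) : ℝ) ≤ y → 0 < y := fun y hy => by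
        push_cast at hy; linarith
      have hd : ∀ y : ℝ, ((37 : ℕ) : ℝ) ≤ y → HasDerivAt (fun x => GGG Dinc 6 x) (AAG Dinc 6 y) y :=
        fun y hy => hasDerivAt_GGG Dinc incP1 incP2 incM hC (hpos y hy)
      apply antitoneOn_of_deriv_nonpos (convex_Ici _)
      · exact fun y hy => (hd y hy).continuousAt.continuousWithinAt
      · intro y hy
        rw [interior_Ici] at hy
        exact (hd y (le_of_lt hy)).differentiableAt.differentiableWithinAt
      · intro y hy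
        rw [interior_Ici] at hy
        rw [(hd y (le_of_lt hy)).deriv]
        rcases le_or_gt y ((100 : ℕ) : ℝ) with h2 | h2
        · refine (AAG_le_of_mem Dinc incP1 incP2 (E := 37) (E2 := 100) (by norm_num)
            (le_of_lt hy) h2).trans ?_
          exact_mod_cast inc_s2
        · apply inc_slope_large
          push_cast at h2
          exact h2.le
    have e1 := hanti (show ((37 : ℕ) : ℝ) ∈ Ici ((37 : ℕ) : ℝ) by simp)
      (show η ∈ Ici ((37 : ℕ) : ℝ) from h1.le) h1.le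
    have e2 := small ((37 : ℕ) : ℝ) (by norm_num) le_rfl
    exact le_trans e1 e2

/-- US: the size inequality of the uniform family -/
theorem ineqU : ∃ d : ℝ, 0 < d ∧ ∀ (j : ℕ) (η : ℝ), 0 < η →
    GGG (D j) 6 η - 2 * Real.pi * η ≤ -(816.7 + j * 412.8) - d * η := by
  refine ⟨1 / 100, by norm_num, fun j η hη => ?_⟩
  rw [GGG_split]
  have h1 := base_ineq η hη
  have h2 := inc_ineq η hη
  have h3 : (j : ℝ) * GGG Dinc 6 η ≤ (j : ℝ) * (-(1652 / 4)) :=
    mul_le_mul_of_nonneg_left h2 (Nat.cast_nonneg j)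
  have h4 : (0 : ℝ) ≤ j := Nat.cast_nonneg j
  nlinarith

end Pool.Agent.OddZetaU
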