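import Pool.Agent.OddZetaU.TabU

/-! Uniform table: the cell checks as functions of a table entry.  Seat: helper57. -/

open Finset

namespace Pool.Agent.OddZetaU

open Pool.Agent.OddZetaG Pool.Agent.OddZetaG.Tab

/-- table entry `(a1, b1, a2, b2, d0, d1)` with value `d0 + j d1` -/
def vj (j : ℕ) (e : ℕ × ℕ × ℕ × ℕ × ℕ × ℕ) : ℕ × ℕ × ℕ × ℕ × ℕ :=
  (e.1, e.2.1, e.2.2.1, e.2.2.2.1, e.2.2.2.2.1 + j * e.2.2.2.2.2)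
def v0 (e : ℕ × ℕ × ℕ × ℕ × ℕ × ℕ) : ℕ × ℕ × ℕ × ℕ × ℕ :=
  (e.1, e.2.1, e.2.2.1, e.2.2.2.1, e.2.2.2.2.1)
def v1 (e : ℕ × ℕ × ℕ × ℕ × ℕ × ℕ) : ℕ × ℕ × ℕ × ℕ × ℕ :=
  (e.1, e.2.1, e.2.2.1, e.2.2.2.1, e.2.2.2.2.2)

def cellU (e : ℕ × ℕ × ℕ × ℕ × ℕ × ℕ) : Bool :=
  sameb 96 e.1 e.2.1 e.2.2.1 e.2.2.2.1 && (roomU e.2.2.2.2.1 e.2.2.2.2.2 &&
    okPerU (e.1 + e.2.2.1) (e.2.1 + e.2.2.2.1) e.2.2.2.2.1 e.2.2.2.2.2)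

def cellFU (Ym : ℕ) (e : ℕ × ℕ × ℕ × ℕ × ℕ × ℕ) : Bool :=
  sameb 96 e.1 e.2.1 e.2.2.1 e.2.2.2.1 && (roomU e.2.2.2.2.1 e.2.2.2.2.2 &&
    okFullU Ym (e.1 + e.2.2.1) (e.2.1 + e.2.2.2.1) e.2.2.2.2.1 e.2.2.2.2.2)

theorem cellU_spec {e : ℕ × ℕ × ℕ × ℕ × ℕ × ℕ} (j : ℕ) (h : cellU e = true) :
    CellP (D j) (vj j e) := by
  unfold cellU at h
  rw [Bool.and_eq_true, Bool.and_eq_true] at h
  obtain ⟨h1, h2, h3⟩ := h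
  have h4 := sameb_iff h1
  have h5 : 0 < e.2.1 + e.2.2.2.1 := by omega
  exact ⟨h1, perU j h5 h2 h3⟩

theorem cellFU_spec {Ym : ℕ} {e : ℕ × ℕ × ℕ × ℕ × ℕ × ℕ} (j : ℕ) (h : cellFU Ym e = true) :
    CellF (D j) Ym (vj j e) := by
  unfold cellFU at h
  rw [Bool.and_eq_true, Bool.and_eq_true] at h
  obtain ⟨h1, h2, h3⟩ := h
  have h4 := sameb_iff h1
  have h5 : 0 < e.2.1 + e.2.2.2.1 := by omega
  exact ⟨h1, fullU j h5 h2 h3⟩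

theorem chain_vj (j : ℕ) (l : List (ℕ × ℕ × ℕ × ℕ × ℕ × ℕ)) : ∀ s1 s2 t1 t2 : ℕ,
    chain s1 s2 (l.map (vj j)) t1 t2 = chain s1 s2 (l.map v0) t1 t2 := by
  induction l with
  | nil => intros; rfl
  | cons e l ih =>
    intro s1 s2 t1 t2
    simp only [List.map_cons, chain, vj, v0]
    rw [ih]

theorem sumUb_vj (j N : ℕ) (l : List (ℕ × ℕ × ℕ × ℕ × ℕ × ℕ)) :
    sumUb N (l.map (vj j)) = sumUb N (l.map v0) + j * sumUb N (l.map v1) := by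
  induction l with
  | nil => rfl
  | cons e l ih =>
    have h : ∀ f : (ℕ × ℕ × ℕ × ℕ × ℕ × ℕ) → (ℕ × ℕ × ℕ × ℕ × ℕ),
        sumUb N ((e :: l).map f) = ub N (f e) + sumUb N (l.map f) := fun f => rfl
    rw [h, h, h, ih]
    simp only [ub, vj, v0, v1]
    ring

end Pool.Agent.OddZetaU
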