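import Pool.Agent.OddZetaU.Data
import Pool.Agent.OddZetaG.TabSem

/-! Uniform table: cell checks for all `D j` at once.  Seat: helper57. -/

open Finset

namespace Pool.Agent.OddZetaU

open Pool.Agent.OddZetaG Pool.Agent.OddZetaG.Tab

/-- the parameters of the pole blocks, without repetition -/
def UP : List ℕ := [28, 29, 30, 31, 32, 33, 34, 35, 36, 37, 38, 39, 40, 41]
/-- all parameters, without repetition -/
def UL : List ℕ := [28, 29, 30, 31, 32, 33, 34, 35, 36, 37, 38, 39, 40, 41, 0, 2, 4, 5, 6]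
/-- the thresholds -/
def OU : List ℕ := [0, 28, 29, 30, 31, 32, 33, 34, 35, 36, 37, 38, 39, 40, 41, 2, 4, 5, 6,
  68, 67, 66, 65, 64, 63, 62, 61, 60, 59, 58, 57, 56, 55, 96, 94, 92, 91, 90]

/-- one threshold -/
def oktU (a b X0 X1 t : ℕ) : Bool :=
  (Nat.ble 128 (X0 / 256 ^ t % 256) || (Nat.beq 127 (X0 / 256 ^ t % 256) && selfb 96 UL [] a b t)) &&
    Nat.ble 128 (X1 / 256 ^ t % 256)

/-- check of the periodic cell with test point `a / b`, values `d0 + j d1` -/
def okPerU (a b d0 d1 : ℕ) : Bool :=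
  OU.all fun o => oktU a b (XX 96 4 P0 M0 a b d0) (XX 96 2 P1 M1 a b d1) ((o * a) % b)

/-- one threshold, explicit range -/
def okFU (a b d0 d1 X0 X1 Y t : ℕ) : Bool :=
  !(Nat.ble ((31 * a) / b + 1) (Y + stb a b t 31) &&
    Nat.ble (Y + enb 96 a b t 31) ((65 * a) / b)) ||
  (oktU a b X0 X1 t ||
  (Nat.ble (Y + stb a b t 28) ((28 * a) / b + 1) &&
    ((Nat.ble 127 (X0 / 256 ^ t % 256 + 4) && Nat.ble 128 (X1 / 256 ^ t % 256 + 2)) ||
      (Nat.ble (sFl' 96 a b M0 + sFl a b P0 + kabS 96 a b P0)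
          (d0 + sFl' 96 a b P0 + sFl a b M0 + kabS 96 a b M0) &&
        (Nat.ble (sFl' 96 a b M1 + sFl a b P1 + kabS 96 a b P1)
          (d1 + sFl' 96 a b P1 + sFl a b M1 + kabS 96 a b M1) &&
            UP.all (noPb 96 a b Y t))))))

def okFullU (Ym a b d0 d1 : ℕ) : Bool :=
  (List.range (Ym + 1)).all fun Y => OU.all fun o =>
    okFU a b d0 d1 (XX 96 4 P0 M0 a b d0) (XX 96 2 P1 M1 a b d1) Y ((o * a) % b)

def roomU (d0 d1 : ℕ) : Bool := room 4 P0 M0 d0 && room 2 P1 M1 d1

theorem arcSum_j (j a b t : ℕ) : arcSum 96 (PL j) (ML j) a b t =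
    arcSum 96 P0 M0 a b t + j * arcSum 96 P1 M1 a b t := by
  unfold arcSum PL ML
  rw [List.map_append, List.sum_append, sum_flatten_replicate, List.map_append, List.sum_append,
    sum_flatten_replicate]
  simp only [nsmul_eq_mul]
  ring

theorem mem_UL_of {j x : ℕ} (h : x ∈ PL j ++ ML j) : x ∈ UL ++ [] := by
  rw [List.mem_append] at h
  have h1 : ∀ x ∈ (P0 ++ P1) ++ (M0 ++ M1), x ∈ UL ++ [] := by decide
  apply h1
  rw [List.mem_append]
  exact h.imp mem_PL mem_ML

theorem mem_OU_of {j o : ℕ} (h : o ∈ Ol 96 (PL j) (ML j)) : o ∈ OU := by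
  unfold Ol at h
  rw [List.mem_cons, List.mem_append, List.mem_map] at h
  have h1 : ∀ x ∈ UL ++ [], x ∈ OU ∧ 96 - x ∈ OU := by decide
  rcases h with rfl | h | ⟨x, hx, rfl⟩
  · decide
  · exact (h1 o (mem_UL_of h)).1
  · exact (h1 x (mem_UL_of hx)).2

theorem selfA_j {j a b t : ℕ} (h : selfA 96 UL [] a b t) : selfA 96 (PL j) (ML j) a b t :=
  fun x hx y hy => h x (mem_UL_of hx) y (mem_UL_of hy)

/-- auxiliary data whose lists are `UL`, `[]` -/
theorem listsU : Lists (ofLists 96 0 0 0 0 UL []) UL [] :=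
  lists_ofLists _ _ _ _ _ _ _ (by norm_num) (by decide)

theorem oktU_spec {a b d0 d1 t : ℕ} (j : ℕ) (hr : roomU d0 d1 = true) (ht : t < b)
    (h : oktU a b (XX 96 4 P0 M0 a b d0) (XX 96 2 P1 M1 a b d1) t = true) :
    arcSum 96 (PL j) (ML j) a b t + (D j).k ≤ ((d0 + j * d1 : ℕ) : ℤ) ∨
      (selfA 96 (PL j) (ML j) a b t ∧
        arcSum 96 (PL j) (ML j) a b t + (D j).k ≤ ((d0 + j * d1 : ℕ) : ℤ) + 1) := by
  unfold roomU at hr
  rw [Bool.and_eq_true] at hr
  have hk : (((D j).k : ℕ) : ℤ) = 4 + 2 * j := by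
    show (((4 + 2 * j : ℕ)) : ℤ) = _
    push_cast
    ring
  rw [arcSum_j, hk]
  unfold oktU at h
  rw [Bool.and_eq_true, Bool.or_eq_true, Bool.and_eq_true] at h
  have g0 := XX_digit (C := 96) (k := 4) (PL := P0) (ML := M0) (a := a) hr.1 ht
  have g1 := XX_digit (C := 96) (k := 2) (PL := P1) (ML := M1) (a := a) hr.2 ht
  obtain ⟨h, h1⟩ := h
  have h1 := Nat.le_of_ble_eq_true h1
  have e1 : arcSum 96 P1 M1 a b t + 2 ≤ (d1 : ℤ) := by omega
  have e1' : (j : ℤ) * (arcSum 96 P1 M1 a b t + 2) ≤ j * (d1 : ℤ) :=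
    mul_le_mul_of_nonneg_left e1 (Int.natCast_nonneg j)
  rcases h with h | ⟨h, h'⟩
  · left
    have h := Nat.le_of_ble_eq_true h
    have e0 : arcSum 96 P0 M0 a b t + 4 ≤ (d0 : ℤ) := by omega
    push_cast
    linarith
  · right
    refine ⟨selfA_j (selfA_of listsU h'), ?_⟩
    have h := Nat.eq_of_beq_eq_true h
    have e0 : arcSum 96 P0 M0 a b t + 4 ≤ (d0 : ℤ) + 1 := by omega
    push_cast
    linarith

theorem perU {a b d0 d1 : ℕ} (j : ℕ) (hb : 0 < b) (hr : roomU d0 d1 = true)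
    (h : okPerU a b d0 d1 = true) : PerOK (D j) a b (d0 + j * d1) := by
  intro n p l hp hS
  apply bnd_per (lists j) l hp hb hS
  intro o ho
  unfold okPerU at h
  rw [List.all_eq_true] at h
  exact oktU_spec j hr (Nat.mod_lt _ hb) (h o (mem_OU_of ho))

theorem Eint_j (j a b : ℕ) : Eint 96 (PL j) (ML j) a b = Eint 96 P0 M0 a b + j * Eint 96 P1 M1 a b := by
  unfold Eint
  simp only [kabS_eq, sFl_eq, sFl'_eq]
  unfold PL ML
  simp only [List.map_append, List.sum_append, sum_flatten_replicate, nsmul_eq_mul]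
  ring

theorem fullU {a b d0 d1 Ym : ℕ} (j : ℕ) (hb : 0 < b) (hr : roomU d0 d1 = true)
    (h : okFullU Ym a b d0 d1 = true) : FullOK (D j) Ym a b (d0 + j * d1) := by
  intro n p l hp hnp hS hl hYm
  obtain ⟨o, ho, H⟩ := key (lists j) l hp hb hS
  have hN : n / p = 0 := Nat.div_eq_of_lt hnp
  have hs : (D j).s ∈ PL j := by
    show 28 ∈ P0 ++ (List.replicate j P1).flatten
    exact List.mem_append_left _ (by decide)
  have hlo : (D j).lo ∈ PL j := by
    show 31 ∈ P0 ++ (List.replicate j P1).flatten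
    exact List.mem_append_left _ (by decide)
  apply bnd_full_sem (lists j) hs hlo hp H hN hl
  unfold okFullU at h
  rw [List.all_eq_true] at h
  have h3 := h (l / p) (List.mem_range.2 (by omega))
  rw [List.all_eq_true] at h3
  have hok := h3 o (mem_OU_of ho)
  have ht : al a b o < b := Nat.mod_lt _ hb
  change okFU a b d0 d1 (XX 96 4 P0 M0 a b d0) (XX 96 2 P1 M1 a b d1) (l / p) (al a b o) = true at hok
  unfold okFU at hok
  rw [Bool.or_eq_true, Bool.or_eq_true, Bool.and_eq_true, Bool.or_eq_true, Bool.and_eq_true,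
    Bool.and_eq_true, Bool.and_eq_true, Bool.not_eq_true', Bool.and_eq_false_iff] at hok
  rcases hok with hok | hok | ⟨hok1, hok2⟩
  · left
    have e1 := stb_eq a b (al a b o) 31
    have e2 := enb_eq 96 a b (al a b o) 31
    show ¬ (0 ≤ ((l / p : ℕ) : ℤ) - fl a b 31 - 1 + St a b (al a b o) 31 ∧
        0 ≤ (fl a b (96 - 31) : ℤ) - ((l / p : ℕ) : ℤ) - En 96 a b (al a b o) 31)
    rw [← e1, ← e2]
    unfold fl
    rcases hok with hok | hok
    · have : ¬ ((31 * a) / b + 1 ≤ l / p + stb a b (al a b o) 31) := by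
        intro h3
        rw [Nat.ble_eq_true_of_le h3] at hok
        exact Bool.noConfusion hok
      omega
    · have : ¬ (l / p + enb 96 a b (al a b o) 31 ≤ (65 * a) / b) := by
        intro h3
        rw [Nat.ble_eq_true_of_le h3] at hok
        exact Bool.noConfusion hok
      show ¬ (0 ≤ ((l / p : ℕ) : ℤ) - ((31 * a / b : ℕ) : ℤ) - 1 + ((stb a b (al a b o) 31 : ℕ) : ℤ) ∧
        0 ≤ ((65 * a / b : ℕ) : ℤ) - ((l / p : ℕ) : ℤ) - ((enb 96 a b (al a b o) 31 : ℕ) : ℤ))
      omega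
  · right
    left
    exact oktU_spec j hr ht hok
  · right
    right
    unfold roomU at hr
    rw [Bool.and_eq_true] at hr
    have g0 := XX_digit (C := 96) (k := 4) (PL := P0) (ML := M0) (a := a) hr.1 ht
    have g1 := XX_digit (C := 96) (k := 2) (PL := P1) (ML := M1) (a := a) hr.2 ht
    constructor
    · have e1 := stb_eq a b (al a b o) 28
      show ((l / p : ℕ) : ℤ) - fl a b 28 - 1 + St a b (al a b o) 28 < 1
      rw [← e1]
      unfold fl
      have h3 := Nat.le_of_ble_eq_true hok1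
      omega
    · rcases hok2 with ⟨h6, h6'⟩ | ⟨h6, h7, h8⟩
      · left
        show arcSum 96 (PL j) (ML j) a b (al a b o) ≤ _
        rw [arcSum_j]
        have h6 := Nat.le_of_ble_eq_true h6
        have h6' := Nat.le_of_ble_eq_true h6'
        have e0 : arcSum 96 P0 M0 a b (al a b o) ≤ (d0 : ℤ) + 1 := by omega
        have e1 : arcSum 96 P1 M1 a b (al a b o) ≤ (d1 : ℤ) := by omega
        have e1' := mul_le_mul_of_nonneg_left e1 (Int.natCast_nonneg j)
        push_cast
        linarith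
      · right
        refine ⟨?_, ?_⟩
        · show - Eint 96 (PL j) (ML j) a b ≤ _
          rw [Eint_j]
          have h6 := Nat.le_of_ble_eq_true h6
          have h7 := Nat.le_of_ble_eq_true h7
          have e0 : - Eint 96 P0 M0 a b ≤ (d0 : ℤ) := by unfold Eint; omega
          have e1 : - Eint 96 P1 M1 a b ≤ (d1 : ℤ) := by unfold Eint; omega
          have e1' := mul_le_mul_of_nonneg_left e1 (Int.natCast_nonneg j)
          push_cast
          linarith
        · intro x hx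
          rw [List.all_eq_true] at h8
          have h1 : ∀ x ∈ P0 ++ P1, x ∈ UP := by decide
          exact h8 x (h1 x (mem_PL hx))

end Pool.Agent.OddZetaU
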