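import Pool.Agent.OddZetaU.CheckA
import Pool.Agent.OddZetaU.Num
import Pool.Agent.OddZetaU.Check0
import Pool.Agent.OddZetaU.Check1
import Pool.Agent.OddZetaU.Check2
import Pool.Agent.OddZetaU.Check3
import Pool.Agent.OddZetaU.Check4
import Pool.Agent.OddZetaU.Check5

/-! The uniform table theorem.  Seat: helper57. -/

open Finset

namespace Pool.Agent.OddZetaU

open Pool.Agent.OddZetaG Pool.Agent.OddZetaG.Tab

theorem ok_T1b : T1b.all cellU = true := by
  unfold T1b
  simp only [List.all_append, ok_T1b0, ok_T1b1, ok_T1b2, ok_T1b3, ok_T1b4, ok_T1b5, ok_T1b6, ok_T1b7, ok_T1b8, ok_T1b9,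
    ok_T1b10, ok_T1b11, ok_T1b12, ok_T1b13, ok_T1b14, ok_T1b15, ok_T1b16, ok_T1b17, ok_T1b18,
    ok_T1b19, ok_T1b20, ok_T1b21, ok_T1b22, ok_T1b23, ok_T1b24, ok_T1b25, ok_T1b26, ok_T1b27,
    ok_T1b28, ok_T1b29, ok_T1b30, ok_T1b31, ok_T1b32, ok_T1b33, ok_T1b34, ok_T1b35, ok_T1b36,
    ok_T1b37, ok_T1b38, ok_T1b39, ok_T1b40, ok_T1b41, ok_T1b42, ok_T1b43, ok_T1b44, ok_T1b45,
    ok_T1b46, ok_T1b47, ok_T1b48, ok_T1b49, ok_T1b50, ok_T1b51, ok_T1b52, ok_T1b53, ok_T1b54,
    ok_T1b55, ok_T1b56, ok_T1b57, ok_T1b58,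
    Bool.and_self]

theorem sumBf (j : ℕ) : ∑ i ∈ Finset.range 15, (Bf0 i + j * Bf1 i) = 14318022757 + j * 8479112118 := by
  rw [Finset.sum_add_distrib, ← Finset.mul_sum]
  have h0 : ∑ i ∈ Finset.range 15, Bf0 i = 14318022757 := by simp [Finset.sum_range_succ, Bf0]
  have h1 : ∑ i ∈ Finset.range 15, Bf1 i = 8479112118 := by simp [Finset.sum_range_succ, Bf1]
  rw [h0, h1]

/-- the table theorem for all `D j` -/
theorem sum_boundU (j : ℕ) : ∃ d : ℕ → ℕ → ℕ, ∃ N : ℕ, ∀ n ≥ N, n.Prime →
      (∀ p : ℕ, p.Prime → p ≠ n → (D j).C * n < p ^ 2 → p ≤ (D j).C * n →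
        ∀ l ∈ poles (D j) n, bnd (D j) n l p ≤ d n p) ∧
      ∑ p ∈ (Finset.Icc 1 ((D j).C * n)).filter (fun p => p.Prime ∧ (D j).C * n < p ^ 2 ∧ p ≠ n),
        (d n p : ℝ) * Real.log p ≤ (815 + j * 408 : ℝ) * n := by
  have hlo : (D j).lo ∈ PL j := by
    show 31 ∈ P0 ++ (List.replicate j P1).flatten
    exact List.mem_append_left _ (by decide)
  have happ : (T1a ++ T1b).map (vj j) = T1a.map (vj j) ++ T1b.map (vj j) := List.map_append
  refine sum_bound_sem (D := D j) (T0 := T0.map (vj j)) (T1a := T1a.map (vj j)) (T1b := T1b.map (vj j))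
    (lists j) hlo (u := 1) (v := 27) (Ym := 2) 15 (by decide) (by decide)
    (show (96 - 31) * 1 ≤ (2 + 1) * 27 by decide) ?_ ?_ ?_ ?_ ?_ ?_ ?_ (403666667388 + j * 164666666986) (394376124680 + j * 232650769642)
    (fun i => Bf0 i + j * Bf1 i) ?_ ?_ ?_ ?_
  · intro e he
    rw [List.mem_map] at he
    obtain ⟨e, he, rfl⟩ := he
    have h := ok_T0
    rw [List.all_eq_true] at h
    exact cellFU_spec j (h e he)
  · intro e he
    rw [← happ, List.mem_map] at he
    obtain ⟨e, he, rfl⟩ := he
    rw [List.mem_append] at he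
    rcases he with he | he
    · have h := ok_T1a
      rw [List.all_eq_true] at h
      exact cellU_spec j (h e he)
    · have h := ok_T1b
      rw [List.all_eq_true] at h
      exact cellU_spec j (h e he)
  · show chain 1 96 _ _ _ = true
    rw [chain_vj]
    exact chain_T0
  · rw [chain_vj]
    exact chain_T1b
  · rw [← happ, chain_vj]
    exact chain_T1
  · intro e he
    rw [List.mem_map] at he
    obtain ⟨e, he, rfl⟩ := he
    have h := pos_T0
    rw [List.all_eq_true] at h
    have := h e he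
    rwa [Nat.blt_eq] at this
  · intro e he
    rw [List.mem_map] at he
    obtain ⟨e, he, rfl⟩ := he
    have h := pos_T1b
    rw [List.all_eq_true] at h
    have := h e he
    rwa [Nat.blt_eq] at this
  · rw [sumUb_vj]
    exact Nat.add_le_add num0_T0 (Nat.mul_le_mul_left _ num1_T0)
  · rw [sumUb_vj]
    exact Nat.add_le_add num0_T1b (Nat.mul_le_mul_left _ num1_T1b)
  · intro i hi
    rw [← happ, sumUb_vj]
    have h0 : sumUb (i + 1) ((T1a ++ T1b).map v0) ≤ Bf0 i := by
      interval_cases i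
      · exact num0_1
      · exact num0_2
      · exact num0_3
      · exact num0_4
      · exact num0_5
      · exact num0_6
      · exact num0_7
      · exact num0_8
      · exact num0_9
      · exact num0_10
      · exact num0_11
      · exact num0_12
      · exact num0_13
      · exact num0_14
      · exact num0_15
    have h1 : sumUb (i + 1) ((T1a ++ T1b).map v1) ≤ Bf1 i := by
      interval_cases i
      · exact num1_1
      · exact num1_2
      · exact num1_3
      · exact num1_4
      · exact num1_5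
      · exact num1_6
      · exact num1_7
      · exact num1_8
      · exact num1_9
      · exact num1_10
      · exact num1_11
      · exact num1_12
      · exact num1_13
      · exact num1_14
      · exact num1_15
    exact Nat.add_le_add h0 (Nat.mul_le_mul_left _ h1)
  · rw [sumBf, length_PL]
    show (((403666667388 + j * 164666666986 + (394376124680 + j * 232650769642) + (14318022757 + j * 8479112118) : ℕ)) : ℝ) / 1000000000 +
      (((21 + 12 * j + (4 + 2 * j) : ℕ)) : ℝ) / ((15 + 1 : ℕ) : ℝ) < 815 + j * 408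
    have hj : (0 : ℝ) ≤ j := Nat.cast_nonneg j
    push_cast
    linarith

end Pool.Agent.OddZetaU
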